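import Mathlib

set_option autoImplicit false

namespace Pool.Agent.Results.MP_078e15_co.AllSetsRealised

/-- `hPow A h` is the product set `A^h = {a₁ a₂ ⋯ a_h : a_i ∈ A}` for `h ≥ 1`:
`A^1 = A` and `A^(h+1) = {x * a : x ∈ A^h, a ∈ A}`.  (The value at `h = 0` is never used.) -/
def hPow {S : Type} [Semigroup S] (A : Set S) : ℕ → Set S
  | 0 => ∅
  | 1 => A
  | (h + 2) => {y | ∃ x ∈ hPow A (h + 1), ∃ a ∈ A, y = x * a}

/-- The sequence `(A_q)` (indexed here by `q = 0, 1, 2, …`) is asymptotically strictly decreasing:
it is decreasing and `A_{q+1} ≠ A_q` for infinitely many `q`. -/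
def AsympStrictDecreasing {S : Type} (A : ℕ → Set S) : Prop :=
  (∀ q, A (q + 1) ⊆ A q) ∧ ∀ N, ∃ q, N ≤ q ∧ A (q + 1) ≠ A q

/-- `H(A_q) = {h ≥ 1 : (⋂_q A_q)^h = ⋂_q (A_q^h)}`. -/
def H {S : Type} [Semigroup S] (A : ℕ → Set S) : Set ℕ :=
  {h | 1 ≤ h ∧ hPow (⋂ q, A q) h = ⋂ q, hPow (A q) h}

/-- `H*_ℕ(S)`: the set of all `H(A_q)`, where `(A_q)` ranges over the asymptotically strictly
decreasing sequences of subsets of `S`. -/
def HStar (S : Type) [Semigroup S] : Set (Set ℕ) :=
  {X | ∃ A : ℕ → Set S, AsympStrictDecreasing A ∧ X = H A}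

/-- Carrier of the witnessing semigroup: a zero, elements `z h`, and elements `x h q j`, the last
one standing for the `(j+1)`-st power of a generator `x h q 0`. -/
inductive E : Type
  | zero : E
  | z (h : ℕ) : E
  | x (h q j : ℕ) : E

namespace E

/-- The multiplication of `E`: powers of one and the same generator `x h q 0` multiply by adding
exponents, the `h`-th power is `z h`, and everything else is zero. -/
def mul : E → E → E
  | x h q i, x h' q' j =>
      if h = h' ∧ q = q' then
        (if i + j + 2 < h then x h q (i + j + 1) else if i + j + 2 = h then z h else zero)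
      else zero
  | _, _ => zero

theorem mul_x_x (h q i h' q' j : ℕ) : mul (x h q i) (x h' q' j) =
    if h = h' ∧ q = q' then
        (if i + j + 2 < h then x h q (i + j + 1) else if i + j + 2 = h then z h else zero)
      else zero := rfl

theorem zero_mul' (a : E) : mul zero a = zero := by cases a <;> rfl
theorem mul_zero' (a : E) : mul a zero = zero := by cases a <;> rfl
theorem z_mul' (h : ℕ) (a : E) : mul (z h) a = zero := by cases a <;> rfl
theorem mul_z' (h : ℕ) (a : E) : mul a (z h) = zero := by cases a <;> rfl

theorem mul_comm' (a b : E) : mul a b = mul b a := by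
  cases a with
  | zero => rw [zero_mul', mul_zero']
  | z h => rw [z_mul', mul_z']
  | x h q i =>
    cases b with
    | zero => rfl
    | z h' => rfl
    | x h' q' j =>
      simp only [mul_x_x]
      by_cases hh : h = h' ∧ q = q'
      · obtain ⟨rfl, rfl⟩ := hh
        simp [Nat.add_comm i j]
      · rw [if_neg hh, if_neg (fun hh' => hh ⟨hh'.1.symm, hh'.2.symm⟩)]

theorem mul_assoc' (a b c : E) : mul (mul a b) c = mul a (mul b c) := by
  cases a with
  | zero => simp only [zero_mul']
  | z h => simp only [z_mul', zero_mul']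
  | x h q i =>
    cases b with
    | zero => simp only [zero_mul', mul_zero']
    | z h' => simp only [z_mul', mul_z', zero_mul', mul_zero']
    | x h' q' j =>
      cases c with
      | zero => simp only [mul_zero']
      | z h'' => simp only [mul_z', mul_zero']
      | x h'' q'' k =>
        simp only [mul_x_x]
        by_cases h1 : h = h' ∧ q = q'
        · obtain ⟨rfl, rfl⟩ := h1
          by_cases h2 : h = h'' ∧ q = q''
          · obtain ⟨rfl, rfl⟩ := h2
            simp only [and_self, if_true]
            by_cases h3 : i + j + 2 < h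
            · rw [if_pos h3, mul_x_x]
              simp only [and_self, if_true]
              by_cases h4 : j + k + 2 < h
              · rw [if_pos h4, mul_x_x]
                simp only [and_self, if_true]
                have e1 : i + j + 1 + k + 2 = i + (j + k + 1) + 2 := by omega
                have e2 : i + j + 1 + k + 1 = i + (j + k + 1) + 1 := by omega
                rw [e1, e2]
              · rw [if_neg h4, if_neg (by omega), if_neg (by omega)]
                by_cases h5 : j + k + 2 = h
                · rw [if_pos h5, mul_z']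
                · rw [if_neg h5, mul_zero']
            · rw [if_neg h3]
              have : mul (if i + j + 2 = h then z h else zero) (x h q k) = zero := by
                by_cases h5 : i + j + 2 = h
                · rw [if_pos h5, z_mul']
                · rw [if_neg h5, zero_mul']
              rw [this]
              by_cases h4 : j + k + 2 < h
              · rw [if_pos h4, mul_x_x]
                simp only [and_self, if_true]
                rw [if_neg (by omega), if_neg (by omega)]
              · rw [if_neg h4]
                by_cases h5 : j + k + 2 = h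
                · rw [if_pos h5, mul_z']
                · rw [if_neg h5, mul_zero']
          · rw [if_neg h2, mul_zero']
            simp only [and_self, if_true]
            by_cases h3 : i + j + 2 < h
            · rw [if_pos h3, mul_x_x, if_neg h2]
            · rw [if_neg h3]
              by_cases h5 : i + j + 2 = h
              · rw [if_pos h5, z_mul']
              · rw [if_neg h5, zero_mul']
        · rw [if_neg h1, zero_mul']
          by_cases h2 : h' = h'' ∧ q' = q''
          · obtain ⟨rfl, rfl⟩ := h2
            simp only [and_self, if_true]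
            by_cases h4 : j + k + 2 < h'
            · rw [if_pos h4, mul_x_x, if_neg h1]
            · rw [if_neg h4]
              by_cases h5 : j + k + 2 = h'
              · rw [if_pos h5, mul_z']
              · rw [if_neg h5, mul_zero']
          · rw [if_neg h2, mul_zero']

instance : CommSemigroup E where
  mul := mul
  mul_assoc := mul_assoc'
  mul_comm := mul_comm'

theorem mul_def (a b : E) : a * b = mul a b := rfl

end E

open E

/-- The sets of the witnessing sequence. -/
def seq (X : Set ℕ) (q : ℕ) : Set E :=
  {e | e = zero ∨ ∃ h q', q ≤ q' ∧ (h ∉ X ∨ h = 1) ∧ e = x h q' 0}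

theorem hPow_succ {S : Type} [Semigroup S] (A : Set S) (k : ℕ) (hk : 1 ≤ k) (y : S) :
    y ∈ hPow A (k + 1) ↔ ∃ x ∈ hPow A k, ∃ a ∈ A, y = x * a := by
  obtain ⟨m, rfl⟩ : ∃ m, k = m + 1 := ⟨k - 1, by omega⟩
  exact Iff.rfl

theorem hPow_one {S : Type} [Semigroup S] (A : Set S) : hPow A 1 = A := rfl

/-- Description of the elements of `(seq X q)^k`. -/
theorem mem_hPow_seq (X : Set ℕ) (q k : ℕ) (hk : 1 ≤ k) (e : E) (he : e ∈ hPow (seq X q) k) :
    e = zero ∨ (∃ h q', q ≤ q' ∧ e = x h q' (k - 1)) ∨ (e = z k ∧ 2 ≤ k ∧ k ∉ X) := by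
  induction k, hk using Nat.le_induction generalizing e with
  | base =>
    rw [hPow_one] at he
    rcases he with he | ⟨h, q', hq, _, he⟩
    · exact Or.inl he
    · exact Or.inr (Or.inl ⟨h, q', hq, by simpa using he⟩)
  | succ k hk ih =>
    rw [hPow_succ _ _ hk] at he
    obtain ⟨y, hy, a, ha, rfl⟩ := he
    rw [mul_def]
    rcases ha with rfl | ⟨h', q'', hq', hX, rfl⟩
    · left; rw [mul_zero']
    rcases ih y hy with rfl | ⟨h, q', hq, rfl⟩ | ⟨rfl, _, _⟩
    · left; rw [zero_mul']
    · rw [mul_x_x]
      by_cases h1 : h = h' ∧ q' = q''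
      · obtain ⟨rfl, rfl⟩ := h1
        simp only [and_self, if_true]
        by_cases h2 : k - 1 + 0 + 2 < h
        · rw [if_pos h2]
          refine Or.inr (Or.inl ⟨h, q', hq, ?_⟩)
          congr 1
          omega
        · rw [if_neg h2]
          by_cases h3 : k - 1 + 0 + 2 = h
          · rw [if_pos h3]
            have h4 : k + 1 = h := by omega
            subst h4
            refine Or.inr (Or.inr ⟨rfl, by omega, ?_⟩)
            rcases hX with hX | hX
            · exact hX
            · omega
          · rw [if_neg h3]; left; rfl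
      · rw [if_neg h1]; left; rfl
    · left; rw [z_mul']

theorem zero_mem_hPow (A : Set E) (hA : zero ∈ A) (k : ℕ) (hk : 1 ≤ k) : zero ∈ hPow A k := by
  induction k, hk using Nat.le_induction with
  | base => exact hA
  | succ k hk ih =>
    rw [hPow_succ _ _ hk]
    exact ⟨zero, ih, zero, hA, by rw [mul_def, zero_mul']⟩

theorem x_mem_hPow (X : Set ℕ) (q h : ℕ) (hX : h ∉ X) (k : ℕ) (hk : 1 ≤ k) (hkh : k < h) :
    x h q (k - 1) ∈ hPow (seq X q) k := by
  induction k, hk using Nat.le_induction with
  | base => exact Or.inr ⟨h, q, le_refl _, Or.inl hX, rfl⟩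
  | succ k hk ih =>
    rw [hPow_succ _ _ hk]
    refine ⟨x h q (k - 1), ih (by omega), x h q 0, Or.inr ⟨h, q, le_refl _, Or.inl hX, rfl⟩, ?_⟩
    rw [mul_def, mul_x_x]
    simp only [and_self, if_true]
    rw [if_pos (by omega)]
    congr 1
    omega

theorem z_mem_hPow (X : Set ℕ) (q h : ℕ) (hX : h ∉ X) (h2 : 2 ≤ h) :
    z h ∈ hPow (seq X q) h := by
  obtain ⟨k, rfl⟩ : ∃ k, h = k + 1 := ⟨h - 1, by omega⟩
  have hk : 1 ≤ k := by omega
  rw [hPow_succ _ _ hk]
  refine ⟨x (k + 1) q (k - 1), x_mem_hPow X q (k + 1) hX k hk (by omega),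
    x (k + 1) q 0, Or.inr ⟨k + 1, q, le_refl _, Or.inl hX, rfl⟩, ?_⟩
  rw [mul_def, mul_x_x]
  simp only [and_self, if_true]
  rw [if_neg (by omega), if_pos (by omega)]

theorem iInter_seq (X : Set ℕ) : (⋂ q, seq X q) = {zero} := by
  ext e
  simp only [Set.mem_iInter, Set.mem_singleton_iff]
  constructor
  · intro he
    rcases he 0 with rfl | ⟨h, q', _, _, rfl⟩
    · rfl
    · rcases he (q' + 1) with h0 | ⟨h1, q1, hq1, _, h2⟩
      · exact h0
      · injection h2 with _ h3 _
        omega
  · rintro rfl q
    exact Or.inl rfl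

theorem hPow_singleton_zero (k : ℕ) (hk : 1 ≤ k) : hPow ({zero} : Set E) k = {zero} := by
  induction k, hk using Nat.le_induction with
  | base => rfl
  | succ k hk ih =>
    ext e
    rw [hPow_succ _ _ hk, ih]
    simp only [Set.mem_singleton_iff]
    constructor
    · rintro ⟨_, rfl, _, rfl, rfl⟩
      rw [mul_def, zero_mul']
    · rintro rfl
      exact ⟨zero, rfl, zero, rfl, by rw [mul_def, zero_mul']⟩

theorem H_seq (X : Set ℕ) (h1 : 1 ∈ X) (h0 : 0 ∉ X) : H (seq X) = X := by
  ext k
  simp only [H, Set.mem_ofPred_eq]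
  rw [iInter_seq]
  constructor
  · rintro ⟨hk, heq⟩
    by_contra hkX
    have hk2 : 2 ≤ k := by
      rcases Nat.lt_or_ge k 2 with h | h
      · have : k = 1 := by omega
        subst this
        exact absurd h1 hkX
      · exact h
    rw [hPow_singleton_zero k hk] at heq
    have hz : z k ∈ ⋂ q, hPow (seq X q) k := by
      simp only [Set.mem_iInter]
      intro q
      exact z_mem_hPow X q k hkX hk2
    rw [← heq] at hz
    simp at hz
  · intro hkX
    have hk : 1 ≤ k := by
      rcases Nat.eq_zero_or_pos k with h | h
      · subst h; exact absurd hkX h0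
      · exact h
    refine ⟨hk, ?_⟩
    rw [hPow_singleton_zero k hk]
    ext e
    simp only [Set.mem_singleton_iff, Set.mem_iInter]
    constructor
    · rintro rfl q
      exact zero_mem_hPow _ (Or.inl rfl) k hk
    · intro he
      rcases mem_hPow_seq X 0 k hk e (he 0) with h | ⟨h, q', _, rfl⟩ | ⟨_, _, h⟩
      · exact h
      · rcases mem_hPow_seq X (q' + 1) k hk _ (he (q' + 1)) with h0 | ⟨h1, q1, hq1, h2⟩ | ⟨h2, _, _⟩
        · exact h0
        · injection h2 with _ h3 _
          omega
        · exact absurd h2 (by simp)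
      · exact absurd hkX h

theorem decreasing_seq (X : Set ℕ) : AsympStrictDecreasing (seq X) := by
  constructor
  · rintro q e (rfl | ⟨h, q', hq, hX, rfl⟩)
    · exact Or.inl rfl
    · exact Or.inr ⟨h, q', by omega, hX, rfl⟩
  · intro N
    refine ⟨N, le_refl _, ?_⟩
    intro heq
    have h1 : x 1 N 0 ∈ seq X N := Or.inr ⟨1, N, le_refl _, Or.inr rfl, rfl⟩
    rw [← heq] at h1
    rcases h1 with h | ⟨h, q', hq, _, h2⟩
    · exact absurd h (by simp)
    · injection h2 with _ h3 _
      omega

/-- There is a commutative semigroup `S` such that `H*_ℕ(S)` consists of *all* sets of positive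
integers that contain `1`. -/
theorem result : ∃ (S : Type) (_ : CommSemigroup S),
    HStar S = {X : Set ℕ | 1 ∈ X ∧ 0 ∉ X} := by
  refine ⟨E, inferInstance, ?_⟩
  ext X
  constructor
  · rintro ⟨A, _, rfl⟩
    refine ⟨⟨le_refl _, ?_⟩, fun h => absurd h.1 (by omega)⟩
    rw [hPow_one]
    rfl
  · rintro ⟨h1, h0⟩
    exact ⟨seq X, decreasing_seq X, (H_seq X h1 h0).symm⟩

end Pool.Agent.Results.MP_078e15_co.AllSetsRealised
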